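import Pool.Agent.P.MP_3d49e4_an.Main

set_option autoImplicit false

namespace Pool.Agent.Results.MP_3d49e4_an.TensorNotAPEP

open Pool.Agent.P.MP_3d49e4_an

theorem result :
    ∃ (X : Type) (_ : NormedAddCommGroup X) (_ : NormedSpace ℝ X) (_ : CompleteSpace X) (x₀ : X),
      IsAPEP (Metric.closedBall (0 : X) 1) x₀ ∧
      ¬ IsAPEP (Metric.closedBall (0 : ProjSq X) 1) (tens x₀ x₀) ∧
      ¬ IsAPEP (closedConvexHull ℝ {z : ProjSq X | ∃ x ∈ Metric.closedBall (0 : X) 1,
        ∃ y ∈ Metric.closedBall (0 : X) 1, z = tens x y}) (tens x₀ x₀) := by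
  refine ⟨XX, inferInstance, inferInstance, inferInstance, delta Node.root, apep_root, ?_, ?_⟩
  · refine not_apep _ (fun x y hx hy => ?_) fun z hz => by simpa using hz
    rw [mem_closedBall_zero_iff]
    exact (norm_tens_le x y).trans (mul_le_one₀ hx (norm_nonneg _) hy)
  · refine not_apep _ (fun x y hx hy => subset_closedConvexHull
      ⟨x, by simpa using hx, y, by simpa using hy, rfl⟩) fun z hz => ?_
    rw [← mem_closedBall_zero_iff]
    refine closedConvexHull_min ?_ (convex_closedBall _ _) Metric.isClosed_closedBall hz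
    rintro _ ⟨x, hx, y, hy, rfl⟩
    rw [mem_closedBall_zero_iff] at hx hy ⊢
    exact (norm_tens_le x y).trans (mul_le_one₀ hx (norm_nonneg _) hy)

end Pool.Agent.Results.MP_3d49e4_an.TensorNotAPEP
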